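import Pool.Agent.Results.MP_29be01_nt.PolynomialFamilies
import Pool.Agent.Y854.GM.Win
import Pool.Agent.Y854.GM.Dya

/-!
# Consecutive Frobenius angles of all members of polynomial families in short windows around thin sequences

Let `v ≥ 1` be a sequence with exponent of convergence at most `τ` (for `v_k = k ^ b` this is `1 / b`, for `v_k = b ^ k`
it is `0`) and `θ < 1`. For all `s ≥ 1` and `δ > 0` there are `κ, C > 0` such that for all `α > 0` outside a set of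
Hausdorff dimension at most `(1 - κ + τ) / (1 - θ)` and ALL polynomials `a, b ∈ ℤ[T]`, for all but finitely many `k`: for
ALL `n` with `|n - α v_k| ≤ v_k ^ θ`, all `K ≤ n ^ κ` and all products `I` of `s` intervals the number of `j < K` such that
the angles of `y² = x³ + a(n) x + b(n)` at the `s` consecutive primes from the `j`-th on are in `I` differs from the
expected number by at most `C K ^ (1 / 2 + δ) (1 + log n) ^ (1 / 2)`.
-/

set_option autoImplicit false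

namespace Pool.Agent.Results.MP_29be01_nt.FamilyWindows

open Finset Polynomial
open PolynomialFamilies (boxCount boxModel)

/-- the exponent of convergence of the sequence `v` is at most `τ` -/
def ExpLe (v : ℕ → ℝ) (τ : ℝ) : Prop := ∀ t : ℝ, τ < t → Summable (fun n : ℕ => (v n) ^ (-t))

/-- the members of the family which violate the law for some `K` and some box `I` -/
def Exc (s : ℕ) (δ κ C : ℝ) (a b : ℤ[X]) : Set ℤ :=
  {n : ℤ | 0 ≤ n ∧ ∃ K : ℕ, (K : ℝ) ≤ |(n : ℝ)| ^ κ ∧ ∃ I : Fin s → Set ℝ, (∀ i, (I i).OrdConnected) ∧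
    C * ((K : ℝ) ^ (1 / 2 + δ) * √(1 + Real.log |(n : ℝ)|)) <
      |(boxCount (a.eval n) (b.eval n) I K : ℝ) - boxModel a b I K|}

lemma count (s : ℕ) (hs : 1 ≤ s) (δ : ℝ) (hδ : 0 < δ) : ∃ κ C : ℝ, 0 < κ ∧ κ < 1 ∧ 0 < C ∧
    ∀ a b : ℤ[X], ∀ η : ℝ, 0 < η →
    ∃ K : ℝ, ∀ X : ℝ, 1 ≤ X → {n : ℤ | n ∈ Exc s δ κ C a b ∧ |(n : ℝ)| ≤ X}.Finite ∧
      ({n : ℤ | n ∈ Exc s δ κ C a b ∧ |(n : ℝ)| ≤ X}.ncard : ℝ) ≤ K * X ^ (1 - κ + η) := by
  obtain ⟨κ₀, C₀, hκ₀, hC₀, h⟩ := PolynomialFamilies.result s hs δ hδ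
  set κ : ℝ := min (κ₀ / 2) (1 / 2) with hκ
  have hκ0 : 0 < κ := lt_min (by positivity) (by norm_num)
  have hκ1 : κ < 1 := lt_of_le_of_lt (min_le_right _ _) (by norm_num)
  have hκ2 : κ ≤ κ₀ / 2 := min_le_left _ _
  -- a threshold for the constant
  obtain ⟨N₁, hN₁⟩ : ∃ N₁ : ℕ, ∀ N : ℕ, N₁ ≤ N → C₀ ≤ (N : ℝ) ^ (κ₀ / 2) := by
    refine ⟨⌈C₀ ^ (2 / κ₀)⌉₊, fun N hN => ?_⟩
    have h1 : C₀ ^ (2 / κ₀) ≤ N := (Nat.le_ceil _).trans (by exact_mod_cast hN)
    calc C₀ = (C₀ ^ (2 / κ₀)) ^ (κ₀ / 2) := by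
          rw [← Real.rpow_mul hC₀.le, show 2 / κ₀ * (κ₀ / 2) = 1 by field_simp, Real.rpow_one]
      _ ≤ (N : ℝ) ^ (κ₀ / 2) := Real.rpow_le_rpow (by positivity) h1 (by positivity)
  refine ⟨κ, 2 * C₀, hκ0, hκ1, by positivity, fun a b η hη => ?_⟩
  have hch : ∀ N : ℕ, ∃ E : Finset ℕ, 1 ≤ N → (E.card : ℝ) ≤ C₀ * (N : ℝ) ^ (1 - κ₀) ∧
        ∀ n : ℕ, n ≤ N → n ∉ E → ∀ K : ℕ, (K : ℝ) ≤ (N : ℝ) ^ κ₀ →
          ∀ I : Fin s → Set ℝ, (∀ i, (I i).OrdConnected) →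
            |(boxCount (a.eval (n : ℤ)) (b.eval (n : ℤ)) I K : ℝ) - boxModel a b I K| ≤
              C₀ * ((K : ℝ) ^ (1 / 2 + δ) * √(1 + Real.log N)) := by
    intro N
    by_cases hN : 1 ≤ N
    · obtain ⟨E, hE⟩ := h a b N hN
      exact ⟨E, fun _ => hE⟩
    · exact ⟨∅, fun h => absurd h hN⟩
  choose E hE using hch
  refine Pool.Agent.Y854.GM.dyadic (Exc s δ κ (2 * C₀) a b) (fun N => ((E N : Set ℕ).image (fun n : ℕ => (n : ℤ))))
    (1 - κ) (by linarith) (max N₁ 1) (fun N hNN => ?_) (fun N => ?_) (fun D hD N hNN hDN hND => ?_) η hη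
  · have h1 : 1 ≤ N := (le_max_right _ _).trans hNN
    have hN0 : (0 : ℝ) < N := by exact_mod_cast h1
    have h2 : (((E N : Set ℕ).image (fun n : ℕ => (n : ℤ))).ncard : ℝ) ≤ ((E N).card : ℝ) := by
      have h3 := Set.ncard_image_le (f := fun n : ℕ => (n : ℤ)) (Finset.finite_toSet (E N))
      rw [Set.ncard_coe_finset] at h3
      exact_mod_cast h3
    calc (((E N : Set ℕ).image (fun n : ℕ => (n : ℤ))).ncard : ℝ) ≤ ((E N).card : ℝ) := h2
      _ ≤ C₀ * (N : ℝ) ^ (1 - κ₀) := (hE N h1).1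
      _ ≤ (N : ℝ) ^ (κ₀ / 2) * (N : ℝ) ^ (1 - κ₀) :=
          mul_le_mul_of_nonneg_right (hN₁ N ((le_max_left _ _).trans hNN)) (by positivity)
      _ = (N : ℝ) ^ (1 - κ₀ / 2) := by
          rw [← Real.rpow_add hN0]
          congr 1
          ring
      _ ≤ (N : ℝ) ^ (1 - κ) := Real.rpow_le_rpow_of_exponent_le (by exact_mod_cast h1) (by linarith)
  · exact (Finset.finite_toSet (E N)).image _
  · have h1 : 1 ≤ N := (le_max_right _ _).trans hNN
    have hN0 : (0 : ℝ) < N := by exact_mod_cast h1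
    obtain ⟨hD0, K, hK, I, hI, hv⟩ := hD
    obtain ⟨n, rfl⟩ := Int.eq_ofNat_of_zero_le hD0
    have hn : n ≤ N := by simpa using hDN
    have hn2 : N < 2 * n := by simpa using hND
    have hn1 : 1 ≤ n := by omega
    have hn0 : (0 : ℝ) < n := by exact_mod_cast hn1
    have habs : |(((n : ℕ) : ℤ) : ℝ)| = (n : ℝ) := by
      push_cast
      exact abs_of_nonneg hn0.le
    rw [habs] at hK hv
    have hnN : (n : ℝ) ≤ N := by exact_mod_cast hn
    have hn1' : (1 : ℝ) ≤ n := by exact_mod_cast hn1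
    by_contra hcon
    have hnE : n ∉ E N := fun hmem => hcon ⟨n, hmem, rfl⟩
    have hKN : (K : ℝ) ≤ (N : ℝ) ^ κ₀ := by
      calc (K : ℝ) ≤ (n : ℝ) ^ κ := hK
        _ ≤ (n : ℝ) ^ κ₀ := Real.rpow_le_rpow_of_exponent_le hn1' (by linarith)
        _ ≤ (N : ℝ) ^ κ₀ := Real.rpow_le_rpow hn0.le hnN hκ₀.le
    have h2 := (hE N h1).2 n hn hnE K hKN I hI
    have hlogn : 0 ≤ Real.log n := Real.log_nonneg hn1'
    have hlog : Real.log N ≤ Real.log n + 1 := by
      have h3 : Real.log N ≤ Real.log (2 * (n : ℝ)) := Real.log_le_log hN0 (by exact_mod_cast hn2.le)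
      rw [Real.log_mul (by norm_num) hn0.ne'] at h3
      have := Real.log_two_lt_d9
      linarith
    have hsq : √(1 + Real.log N) ≤ 2 * √(1 + Real.log n) := by
      rw [show (2 : ℝ) = √4 by
        rw [show (4 : ℝ) = 2 ^ 2 by norm_num, Real.sqrt_sq (by norm_num)], ← Real.sqrt_mul (by norm_num)]
      exact Real.sqrt_le_sqrt (by linarith)
    have h4 : C₀ * ((K : ℝ) ^ (1 / 2 + δ) * √(1 + Real.log N)) ≤
        2 * C₀ * ((K : ℝ) ^ (1 / 2 + δ) * √(1 + Real.log n)) := by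
      have h5 : (K : ℝ) ^ (1 / 2 + δ) * √(1 + Real.log N) ≤ (K : ℝ) ^ (1 / 2 + δ) * (2 * √(1 + Real.log n)) :=
        mul_le_mul_of_nonneg_left hsq (by positivity)
      nlinarith [mul_le_mul_of_nonneg_left h5 hC₀.le]
    exact absurd (h2.trans h4) (not_le.2 hv)

/-- **Theorem.** For all `s ≥ 1` and `δ > 0` there are `0 < κ < 1` and `C > 0` with the following property. Let `v ≥ 1` be
a sequence with exponent of convergence at most `τ ≥ 0` and `θ < 1`. There is a set `E` of Hausdorff dimension at most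
`(1 - κ + τ) / (1 - θ)` such that for each `α > 0` outside `E` and ALL polynomials `a, b ∈ ℤ[T]`, for all but finitely
many `k`: for ALL `n` with `|n - α v_k| ≤ v_k ^ θ`, all `K ≤ n ^ κ` and all products of `s` intervals, the number of the
`j < K` such that the angles of `y² = x³ + a(n) x + b(n)` at the `s` consecutive primes with the numbers
`j, ..., j + s - 1` are in the intervals differs from the expected number (the sum over `j < K` of the product of the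
proportions of the residues `t` modulo the `s` primes for which the angle of `y² = x³ + a(t) x + b(t)` is in the interval)
by at most `C K ^ (1 / 2 + δ) (1 + log n) ^ (1 / 2)`. The sequences `v_k = (k + 1) ^ b` and `v_k = b ^ k` have exponent of
convergence at most `1 / b` and `0`. -/
theorem result :
    (∀ s : ℕ, 1 ≤ s → ∀ δ : ℝ, 0 < δ → ∃ κ C : ℝ, 0 < κ ∧ κ < 1 ∧ 0 < C ∧
      ∀ (v : ℕ → ℝ) (τ θ : ℝ), (∀ n, 1 ≤ v n) → 0 ≤ τ → ExpLe v τ → θ < 1 →
        ∃ E : Set ℝ, dimH E ≤ ENNReal.ofReal ((1 - κ + τ) / (1 - θ)) ∧ ∀ α : ℝ, 0 < α → α ∉ E → ∀ a b : ℤ[X],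
          ∃ k₀ : ℕ, ∀ k : ℕ, k₀ ≤ k → ∀ n : ℕ, |(n : ℝ) - α * v k| ≤ (v k) ^ θ →
            ∀ K : ℕ, (K : ℝ) ≤ (n : ℝ) ^ κ → ∀ I : Fin s → Set ℝ, (∀ i, (I i).OrdConnected) →
              |(boxCount (a.eval (n : ℤ)) (b.eval (n : ℤ)) I K : ℝ) - boxModel a b I K| ≤
                C * ((K : ℝ) ^ (1 / 2 + δ) * √(1 + Real.log n))) ∧
    (∀ b : ℝ, 0 < b → ExpLe (fun n : ℕ => ((n : ℝ) + 1) ^ b) (1 / b)) ∧
    (∀ b : ℝ, 1 < b → ExpLe (fun n : ℕ => b ^ n) 0) := by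
  refine ⟨fun s hs δ hδ => ?_, fun κ hκ => Pool.Agent.Y854.GM.expLe_pow κ hκ,
    fun b hb => Pool.Agent.Y854.GM.expLe_geom b hb⟩
  obtain ⟨κ, C, hκ, hκ1, hC, hcount⟩ := count s hs δ hδ
  refine ⟨κ, C, hκ, hκ1, hC, fun v τ θ hv hτ hE hθ1 => ?_⟩
  have key : ∀ z : ℤ[X] × ℤ[X], ∃ E : Set ℝ, dimH E ≤ ENNReal.ofReal ((1 - κ + τ) / (1 - θ)) ∧
      ∀ α : ℝ, 0 < α → α ∉ E → ∃ n₀ : ℕ, ∀ n : ℕ, n₀ ≤ n → ∀ D ∈ Exc s δ κ C z.1 z.2,
        (v n) ^ θ < |(|(D : ℝ)|) - α * v n| := by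
    rintro ⟨a, b⟩
    exact Pool.Agent.Y854.GM.windows (Exc s δ κ C a b) (fun D : ℤ => |(D : ℝ)|) hv hτ hE
      (s := 1 - κ) (by linarith) hθ1 (fun η hη => hcount a b η hη)
  choose G hG1 hG2 using key
  have hcnt : Countable ℤ[X] := by
    have hinj : Function.Injective (fun (p : ℤ[X]) (n : ℕ) => p.coeff n) :=
      fun p q hpq => Polynomial.ext fun n => congrFun hpq n
    have hinj2 : Function.Injective (fun p : ℤ[X] => Finsupp.onFinset p.support (fun n => p.coeff n)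
        (fun n hn => Polynomial.mem_support_iff.2 hn)) := by
      intro p q hpq
      apply hinj
      funext n
      exact DFunLike.congr_fun hpq n
    exact hinj2.countable
  refine ⟨⋃ z, G z, ?_, fun α hα hαE a b => ?_⟩
  · rw [dimH_iUnion]
    exact iSup_le hG1
  · rw [Set.mem_iUnion] at hαE
    push Not at hαE
    obtain ⟨k₀, hk⟩ := hG2 (a, b) α hα (hαE (a, b))
    refine ⟨k₀, fun k hk1 n hw K hK I hI => ?_⟩
    have hnabs : |(((n : ℕ) : ℤ) : ℝ)| = (n : ℝ) := by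
      push_cast
      exact abs_of_nonneg (Nat.cast_nonneg n)
    by_contra hcon
    push Not at hcon
    refine absurd (hk k hk1 (n : ℤ) ⟨Int.natCast_nonneg n, K, ?_, I, hI, ?_⟩) (not_lt.2 ?_)
    · rw [hnabs]
      exact hK
    · rw [hnabs]
      exact hcon
    · rw [hnabs]
      exact hw

end Pool.Agent.Results.MP_29be01_nt.FamilyWindows
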