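import Pool.Agent.Y57.FD.Tup0
import Pool.Agent.Y57.FD.HypM

/-!
# The first five Weyl sums of the Frobenius angles of an elliptic curve at `s` consecutive primes, over arbitrary families of weights:
square-root cancellation for almost all curves whose three coefficients arise from arbitrary integers by changing a few digits

The local means are computed exactly: the values of a random monic cubic polynomial at three points are independent, and the sum of
the characters of the values at four points is a Jacobi sum, so that the moments of the trace up to the order five are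
`0, 1, 0, 2, 0`, up to `O(1 / p)`.
-/

set_option autoImplicit false

namespace Pool.Agent.Results.MP_29be01_nt.FewDigitWeylSums

open Finset

/-- The number of the solutions of `Y ^ 2 = X ^ 3 + m 2 X ^ 2 + m 1 X + m 0` modulo `p`. -/
noncomputable def points (p : ℕ) (m : Fin 3 → ℕ) : ℕ :=
  Nat.card {P : ZMod p × ZMod p // P.2 ^ 2 = P.1 ^ 3 + (m 2 : ZMod p) * P.1 ^ 2 + (m 1 : ZMod p) * P.1 + (m 0 : ZMod p)}

/-- `p` is odd and `X ^ 3 + m 2 X ^ 2 + m 1 X + m 0` is separable modulo `p`, so that the curve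
`Y ^ 2 = X ^ 3 + m 2 X ^ 2 + m 1 X + m 0` is smooth modulo `p`. -/
def Smooth (p : ℕ) (m : Fin 3 → ℕ) : Prop :=
  p ≠ 2 ∧ (Polynomial.X ^ 3 + Polynomial.C (m 2 : ZMod p) * Polynomial.X ^ 2 + Polynomial.C (m 1 : ZMod p) * Polynomial.X +
    Polynomial.C (m 0 : ZMod p)).Separable

open Classical in
/-- The cosine of the Frobenius angle `θ` of the curve `Y ^ 2 = X ^ 3 + m 2 X ^ 2 + m 1 X + m 0` at the prime `p`:
`2 p ^ (1 / 2) cos θ = p + 1 - #E(F_p) = p - points p m`, and `0` if the curve is not smooth modulo `p`. -/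
noncomputable def cosAngle (p : ℕ) (m : Fin 3 → ℕ) : ℝ :=
  if Smooth p m then ((p : ℝ) - points p m) / (2 * Real.sqrt p) else 0

/-- The joint Weyl sum of the orders `j i` at the `s` consecutive primes with the indices `k, ..., k + s - 1`, `k < n` (the primes are
numbered from `0`), with the weights `w k`; `U_j (cos θ) = sin ((j + 1) θ) / sin θ` is the Chebyshev polynomial. -/
noncomputable def weylSum (s : ℕ) (w : ℕ → ℝ) (j : Fin s → ℕ) (n : ℕ) (m : Fin 3 → ℕ) : ℝ :=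
  ∑ k ∈ range n, w k * ∏ i : Fin s, (Polynomial.Chebyshev.U ℝ (j i : ℤ)).eval (cosAngle (Nat.nth Nat.Prime (k + i)) m)

/-- For all weights in `W` and all orders `j i ≤ 5`, not all zero, the joint Weyl sum is at most
`(max 1 (∑ w k ^ 2)) ^ (1 / 2) n ^ δ`. -/
def Cancels (s : ℕ) (δ : ℝ) (W : Set (ℕ → ℝ)) (n : ℕ) (m : Fin 3 → ℕ) : Prop :=
  ∀ w ∈ W, ∀ j : Fin s → ℕ, (∀ i, j i ≤ 5) → (∃ i, j i ≠ 0) →
    |weylSum s w j n m| ≤ Real.sqrt (max 1 (∑ k ∈ range n, w k ^ 2)) * (n : ℝ) ^ δ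

/-- The digit number `i` (counted from the right, beginning with `0`) of `n` in base `b`. -/
def digit (b i n : ℕ) : ℕ := n / b ^ i % b

/-- The number which arises from the number `N` with at most `K` digits in base `b`, if for every `i ∈ S`
the digit number `i` is replaced by `f i`. -/
def change (b K N : ℕ) (f : ℕ → ℕ) (S : Finset ℕ) : ℕ :=
  ∑ i ∈ range K, (if i ∈ S then f i else digit b i N) * b ^ i

open Classical in
/-- The number of the choices of `r l` of `K l` positions for `l = 0, 1, 2` for which the triple of the numbers obtained by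
changing the digits of the `N l` at the chosen positions (according to `f l`) does not have the property `E`. -/
noncomputable def exceptions (b : ℕ) (K r N : Fin 3 → ℕ) (f : Fin 3 → ℕ → ℕ) (E : (Fin 3 → ℕ) → Prop) : ℕ :=
  ((Fintype.piFinset (fun l => powersetCard (r l) (range (K l)))).filter
    (fun S => ¬ E (fun l => change b (K l) (N l) (f l) (S l)))).card

lemma exc_eq (b : ℕ) (K r N : Fin 3 → ℕ) (f : Fin 3 → ℕ → ℕ) (E : (Fin 3 → ℕ) → Prop) :
    exceptions b K r N f E = Pool.Agent.Y57.FD.exceptions b K r N f E := rfl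

lemma card_affine (p : ℕ) [Fact p.Prime] (hp : p ≠ 2) (f : ZMod p → ZMod p) :
    (Nat.card {P : ZMod p × ZMod p // P.2 ^ 2 = f P.1} : ℝ) = (p : ℝ) + ∑ x : ZMod p, (quadraticChar (ZMod p) (f x) : ℝ) := by
  classical
  have hchar : ringChar (ZMod p) ≠ 2 := by
    rw [ZMod.ringChar_zmod_n]
    exact hp
  have h1 : Nat.card {P : ZMod p × ZMod p // P.2 ^ 2 = f P.1} = ∑ x : ZMod p, Nat.card {y : ZMod p // y ^ 2 = f x} := by
    rw [← Nat.card_sigma]
    refine Nat.card_congr ⟨fun P => ⟨P.1.1, ⟨P.1.2, P.2⟩⟩, fun P => ⟨(P.1, P.2.1), P.2.2⟩, fun _ => rfl, fun _ => rfl⟩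
  have h2 : ∀ x : ZMod p, ((Nat.card {y : ZMod p // y ^ 2 = f x} : ℕ) : ℤ) = quadraticChar (ZMod p) (f x) + 1 := by
    intro x
    rw [← quadraticChar_card_sqrts hchar (f x)]
    congr 1
    rw [Nat.card_eq_fintype_card, Fintype.card_subtype]
    congr 1
    ext y
    simp
  rw [h1]
  push_cast
  have h3 : ∀ x : ZMod p, ((Nat.card {y : ZMod p // y ^ 2 = f x} : ℕ) : ℝ) = (quadraticChar (ZMod p) (f x) : ℝ) + 1 := by
    intro x
    have := h2 x
    exact_mod_cast this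
  rw [sum_congr rfl (fun x _ => h3 x), sum_add_distrib, sum_const, card_univ, ZMod.card, nsmul_eq_mul, mul_one]
  ring

lemma pol_eq (p : ℕ) [Fact p.Prime] (m : Fin (2 * 1 + 1) → ℕ) :
    Pool.Agent.Y57.FD.HM.pol p (fun i => ((m i : ℕ) : ZMod p)) =
    Polynomial.X ^ 3 + Polynomial.C (m 2 : ZMod p) * Polynomial.X ^ 2 + Polynomial.C (m 1 : ZMod p) * Polynomial.X +
      Polynomial.C (m 0 : ZMod p) := by
  unfold Pool.Agent.Y57.FD.HM.pol
  rw [Fin.sum_univ_three]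
  simp
  ring

lemma val_eq (p : ℕ) [Fact p.Prime] (m : Fin (2 * 1 + 1) → ℕ) (x : ZMod p) :
    Pool.Agent.Y57.FD.Mom.val (ZMod p) (2 * 1 + 1) (fun i => ((m i : ℕ) : ZMod p)) x =
    x ^ 3 + (m 2 : ZMod p) * x ^ 2 + (m 1 : ZMod p) * x + (m 0 : ZMod p) := by
  unfold Pool.Agent.Y57.FD.Mom.val
  rw [Fin.sum_univ_three]
  simp
  ring

lemma cosAngle_eq (p : ℕ) (hp : p.Prime) (m : Fin 3 → ℕ) :
    cosAngle p m = - Pool.Agent.Y57.FD.HM.tr 1 p m / 2 := by
  classical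
  haveI : Fact p.Prime := ⟨hp⟩
  unfold cosAngle Pool.Agent.Y57.FD.HM.tr
  by_cases h2 : p = 2
  · rw [if_neg (fun h => h.1 h2), dif_neg (fun h => h.2 h2)]
    simp
  · rw [dif_pos ⟨hp, h2⟩]
    by_cases h3 : (Pool.Agent.Y57.FD.HM.pol p (D := 2 * 1 + 1) (fun i => ((m i : ℕ) : ZMod p))).Separable
    · have h4 : Smooth p m := ⟨h2, by rw [pol_eq] at h3; exact h3⟩
      rw [if_pos h4, if_pos h3]
      unfold points
      rw [card_affine p h2 (fun x => x ^ 3 + (m 2 : ZMod p) * x ^ 2 + (m 1 : ZMod p) * x + (m 0 : ZMod p))]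
      simp only [val_eq, ZMod.card]
      ring
    · have h4 : ¬ Smooth p m := fun h => h3 (by rw [pol_eq]; exact h.2)
      rw [if_neg h4, if_neg h3]
      simp

open Polynomial in
lemma U1 (x : ℝ) : (Chebyshev.U ℝ 1).eval x = 2 * x := by
  rw [Chebyshev.U_one]
  simp

open Polynomial in
lemma U2 (x : ℝ) : (Chebyshev.U ℝ 2).eval x = 4 * x ^ 2 - 1 := by
  rw [Chebyshev.U_two]
  simp

open Polynomial in
lemma U3 (x : ℝ) : (Chebyshev.U ℝ 3).eval x = 8 * x ^ 3 - 4 * x := by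
  have h := Chebyshev.U_add_two ℝ 1
  have e : (1 : ℤ) + 2 = 3 := by norm_num
  have e' : (1 : ℤ) + 1 = 2 := by norm_num
  rw [e, e'] at h
  rw [h, eval_sub, eval_mul, U2, U1]
  simp
  ring

open Polynomial in
lemma U4 (x : ℝ) : (Chebyshev.U ℝ 4).eval x = 16 * x ^ 4 - 12 * x ^ 2 + 1 := by
  have h := Chebyshev.U_add_two ℝ 2
  have e : (2 : ℤ) + 2 = 4 := by norm_num
  have e' : (2 : ℤ) + 1 = 3 := by norm_num
  rw [e, e'] at h
  rw [h, eval_sub, eval_mul, U3, U2]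
  simp
  ring

open Polynomial in
lemma U5 (x : ℝ) : (Chebyshev.U ℝ 5).eval x = 32 * x ^ 5 - 32 * x ^ 3 + 6 * x := by
  have h := Chebyshev.U_add_two ℝ 3
  have e : (3 : ℤ) + 2 = 5 := by norm_num
  have e' : (3 : ℤ) + 1 = 4 := by norm_num
  rw [e, e'] at h
  rw [h, eval_sub, eval_mul, U4, U3]
  simp
  ring

lemma usp0 : Pool.Agent.Y57.FD.Mom.usp 1 0 = 1 := by
  unfold Pool.Agent.Y57.FD.Mom.usp Pool.Agent.Y57.FD.Mom.normal
  simp

lemma usp1 : Pool.Agent.Y57.FD.Mom.usp 1 1 = 0 := by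
  unfold Pool.Agent.Y57.FD.Mom.usp Pool.Agent.Y57.FD.Mom.normal
  rw [if_neg (by decide), if_neg (by decide)]
  norm_num

lemma usp2 : Pool.Agent.Y57.FD.Mom.usp 1 2 = 1 := by
  unfold Pool.Agent.Y57.FD.Mom.usp Pool.Agent.Y57.FD.Mom.normal
  rw [if_pos (by decide), if_neg (by decide)]
  simp [Nat.doubleFactorial]

lemma usp3 : Pool.Agent.Y57.FD.Mom.usp 1 3 = 0 := by
  unfold Pool.Agent.Y57.FD.Mom.usp Pool.Agent.Y57.FD.Mom.normal
  rw [if_neg (by decide), if_neg (by decide)]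
  norm_num

lemma usp4 : Pool.Agent.Y57.FD.Mom.usp 1 4 = 2 := by
  unfold Pool.Agent.Y57.FD.Mom.usp Pool.Agent.Y57.FD.Mom.normal
  rw [if_pos (by decide), if_pos (by decide)]
  have : Nat.doubleFactorial (4 - 1) = 3 := by decide
  rw [this]
  norm_num

lemma usp5 : Pool.Agent.Y57.FD.Mom.usp 1 5 = 0 := by
  unfold Pool.Agent.Y57.FD.Mom.usp Pool.Agent.Y57.FD.Mom.normal
  rw [if_neg (by decide), if_neg (by decide)]
  norm_num

/-- the coefficients of `U_j (- t / 2)` -/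
def cf (j : ℕ) : ℕ → ℝ
  | 0 => if j = 2 then -1 else if j = 4 then 1 else 0
  | 1 => if j = 1 then -1 else if j = 3 then 2 else if j = 5 then -3 else 0
  | 2 => if j = 2 then 1 else if j = 4 then -3 else 0
  | 3 => if j = 3 then -1 else if j = 5 then 4 else 0
  | 4 => if j = 4 then 1 else 0
  | 5 => if j = 5 then -1 else 0
  | _ => 0

lemma cf_sum (j : ℕ) (h1 : 1 ≤ j) (h5 : j ≤ 5) :
    ∑ m ∈ range (2 * 1 + 4), cf j m * Pool.Agent.Y57.FD.Mom.usp 1 m = 0 := by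
  simp only [sum_range_succ, sum_range_zero, cf]
  obtain rfl | rfl | rfl | rfl | rfl : j = 1 ∨ j = 2 ∨ j = 3 ∨ j = 4 ∨ j = 5 := by omega
  all_goals norm_num [usp0, usp1, usp2, usp3, usp4, usp5]

lemma cf_eval (j : ℕ) (h1 : 1 ≤ j) (h5 : j ≤ 5) (t : ℝ) :
    (Polynomial.Chebyshev.U ℝ (j : ℤ)).eval (- t / 2) = ∑ m ∈ range (2 * 1 + 4), cf j m * t ^ m := by
  simp only [sum_range_succ, sum_range_zero, cf]
  obtain rfl | rfl | rfl | rfl | rfl : j = 1 ∨ j = 2 ∨ j = 3 ∨ j = 4 ∨ j = 5 := by omega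
  · rw [show ((1 : ℕ) : ℤ) = 1 by norm_num, U1]
    norm_num
    ring
  · rw [show ((2 : ℕ) : ℤ) = 2 by norm_num, U2]
    norm_num
    ring
  · rw [show ((3 : ℕ) : ℤ) = 3 by norm_num, U3]
    norm_num
    ring
  · rw [show ((4 : ℕ) : ℤ) = 4 by norm_num, U4]
    norm_num
    ring
  · rw [show ((5 : ℕ) : ℤ) = 5 by norm_num, U5]
    norm_num
    ring

/-- the means of the Chebyshev polynomials -/
lemma meanU (j : ℕ) (h1 : 1 ≤ j) (h5 : j ≤ 5) : ∃ C : ℝ, 0 ≤ C ∧ ∀ p : ℕ, p.Prime →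
    |Pool.Agent.TH894.NE.mean 3 p (fun m => (Polynomial.Chebyshev.U ℝ (j : ℤ)).eval (cosAngle p m))| ≤ C / p := by
  obtain ⟨C, hC0, hC⟩ := Pool.Agent.Y57.FD.HM.mean_pol 1 (cf j)
  refine ⟨C, hC0, fun p hp => ?_⟩
  have h := hC p hp
  rw [cf_sum j h1 h5, sub_zero] at h
  have e : (fun m : Fin 3 → ℕ => (Polynomial.Chebyshev.U ℝ (j : ℤ)).eval (cosAngle p m)) =
      fun m : Fin (2 * 1 + 1) → ℕ => ∑ l ∈ range (2 * 1 + 4), cf j l * Pool.Agent.Y57.FD.HM.tr 1 p m ^ l := by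
    funext m
    rw [cosAngle_eq p hp, cf_eval j h1 h5]
  rw [e]
  exact h

lemma cos_le (p : ℕ) (hp : p.Prime) (m : Fin 3 → ℕ) : |cosAngle p m| ≤ 1 := by
  rw [cosAngle_eq p hp, abs_div, abs_neg]
  have h := Pool.Agent.Y57.FD.HM.tr_le 1 p m
  rw [abs_of_pos (by norm_num : (0 : ℝ) < 2), div_le_one (by norm_num)]
  simpa using h

lemma U_le (j : ℕ) (h5 : j ≤ 5) {x : ℝ} (hx : |x| ≤ 1) : |(Polynomial.Chebyshev.U ℝ (j : ℤ)).eval x| ≤ 70 := by
  have hp : ∀ k : ℕ, |x ^ k| ≤ 1 := by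
    intro k
    rw [abs_pow]
    exact pow_le_one₀ (abs_nonneg _) hx
  have a1 := abs_le.1 hx
  have a2 := abs_le.1 (hp 2)
  have a3 := abs_le.1 (hp 3)
  have a4 := abs_le.1 (hp 4)
  have a5 := abs_le.1 (hp 5)
  obtain rfl | rfl | rfl | rfl | rfl | rfl : j = 0 ∨ j = 1 ∨ j = 2 ∨ j = 3 ∨ j = 4 ∨ j = 5 := by omega
  · rw [show ((0 : ℕ) : ℤ) = 0 by norm_num, Polynomial.Chebyshev.U_zero]
    simp
  · rw [show ((1 : ℕ) : ℤ) = 1 by norm_num, U1, abs_le]
    constructor <;> linarith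
  · rw [show ((2 : ℕ) : ℤ) = 2 by norm_num, U2, abs_le]
    constructor <;> linarith
  · rw [show ((3 : ℕ) : ℤ) = 3 by norm_num, U3, abs_le]
    constructor <;> linarith
  · rw [show ((4 : ℕ) : ℤ) = 4 by norm_num, U4, abs_le]
    constructor <;> linarith
  · rw [show ((5 : ℕ) : ℤ) = 5 by norm_num, U5, abs_le]
    constructor <;> linarith

/-- Let a base `b ≥ 2`, an integer `s ≥ 1`, `δ > 0` and integers `A, B ≥ 0` be given. There are `c > 0` and `y₀` such that for all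
integers `r l`, `K l` (`l = 0, 1, 2`), `y` with `2 r l ≤ K l` and `y ≥ y₀` the following holds.

Let `0 ≤ N l < b ^ K l` be arbitrary integers, prescribe for every position `j` a digit `f l j` different from the digit of
`N l` in base `b`, and let for every `n` an arbitrary set `W n` of at most `n ^ B` weights `w : ℕ → [-1, 1]` be given (for instance
the indicator functions of intervals, residue classes or other sets of primes, or the values of characters). If one chooses `r l` of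
the `K l` positions and replaces the digits of `N l` at these positions, then for all but at most a proportion `1 / y ^ A` of the
choices the elliptic curve `Y ^ 2 = X ^ 3 + m 2 X ^ 2 + m 1 X + m 0` with the numbers `m l` obtained has the following property: for
all integers `n` with `y ≤ n ≤ exp (c r l)` for all `l`, all weights `w ∈ W n` and all orders `j 1, ..., j s ≤ 5`, not all zero, the
Weyl sum `∑ w k U_{j 1} (cos θ_{p_k}) ... U_{j s} (cos θ_{p_{k + s - 1}})` over `k < n` of the Frobenius angles at `s`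
consecutive primes is at most `(max 1 (∑ w k ^ 2)) ^ (1 / 2) n ^ δ`. -/
theorem result (b s : ℕ) (hb : 2 ≤ b) (hs : 1 ≤ s) (δ : ℝ) (hδ : 0 < δ) (A B : ℕ) :
    ∃ c : ℝ, 0 < c ∧ ∃ y₀ : ℕ, ∀ (K r : Fin 3 → ℕ) (y : ℕ), (∀ l, 2 * r l ≤ K l) → y₀ ≤ y →
    ∀ N : Fin 3 → ℕ, (∀ l, N l < b ^ K l) → ∀ f : Fin 3 → ℕ → ℕ, (∀ l j, f l j < b ∧ f l j ≠ digit b j (N l)) →
    ∀ W : ℕ → Set (ℕ → ℝ), (∀ n, (W n).Finite ∧ (W n).ncard ≤ n ^ B) → (∀ n, ∀ w ∈ W n, ∀ k, |w k| ≤ 1) →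
      (exceptions b K r N f (fun m => ∀ n : ℕ, y ≤ n → (∀ l, (n : ℝ) ≤ Real.exp (c * r l)) → Cancels s δ (W n) n m) : ℝ) ≤
        1 / (y : ℝ) ^ A * ∏ l, ((K l).choose (r l) : ℝ) := by
  classical
  -- the constants of the local means
  have hch : ∀ j : ℕ, ∃ C : ℝ, 0 ≤ C ∧ (1 ≤ j → j ≤ 5 → ∀ p : ℕ, p.Prime →
      |Pool.Agent.TH894.NE.mean 3 p (fun m => (Polynomial.Chebyshev.U ℝ (j : ℤ)).eval (cosAngle p m))| ≤ C / p) := by
    intro j
    by_cases hj : 1 ≤ j ∧ j ≤ 5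
    · obtain ⟨C, hC0, hC⟩ := meanU j hj.1 hj.2
      exact ⟨C, hC0, fun _ _ => hC⟩
    · exact ⟨0, le_rfl, fun h1 h2 => absurd ⟨h1, h2⟩ hj⟩
  choose C hC0 hC using hch
  obtain ⟨C', hC'⟩ : ∃ C' : ℝ, C' = ∑ j ∈ range 6, C j := ⟨_, rfl⟩
  have hC'0 : 0 ≤ C' := by
    rw [hC']
    exact sum_nonneg fun j _ => hC0 j
  obtain ⟨c, hc, y₁, h⟩ := Pool.Agent.Y57.FD.tuples0 b 3 s hb (by norm_num) hs δ hδ A (B + 3 * s) 70 C' (by norm_num) hC'0
  refine ⟨c, hc, y₁ + 2, fun K r y hrK hy N hN f hf W hW hW1 => ?_⟩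
  rw [exc_eq]
  have hWf : ∀ n, (W n).Finite := fun n => (hW n).1
  obtain ⟨J, hJ⟩ : ∃ J : Finset (Fin s → ℕ), J = (Fintype.piFinset (fun _ : Fin s => range 6)).filter (fun j => ∃ i, j i ≠ 0) := ⟨_, rfl⟩
  have hJm : ∀ j : Fin s → ℕ, j ∈ J ↔ (∀ i, j i ≤ 5) ∧ ∃ i, j i ≠ 0 := by
    intro j
    rw [hJ, mem_filter, Fintype.mem_piFinset]
    simp only [mem_range]
    constructor
    · rintro ⟨h1, h2⟩
      exact ⟨fun i => by have := h1 i; omega, h2⟩
    · rintro ⟨h1, h2⟩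
      exact ⟨fun i => by have := h1 i; omega, h2⟩
  refine h K r y hrK (by omega) N hN f hf
    ((ℕ → ℝ) × (Fin s → ℕ)) (fun n => (hWf n).toFinset ×ˢ J) ?_ (fun l => l.1) ?_
    (fun l i p m => if p.Prime ∧ l.2 i ≤ 5 then (Polynomial.Chebyshev.U ℝ (l.2 i : ℤ)).eval (cosAngle p m) else 0)
    ?_ ?_ ?_ _ ?_
  · intro n hn
    rw [card_product, ← Set.ncard_eq_toFinset_card _ (hWf n), pow_add]
    apply Nat.mul_le_mul (hW n).2
    have h1 : J.card ≤ 6 ^ s := by
      rw [hJ]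
      refine (card_filter_le _ _).trans ?_
      rw [Fintype.card_piFinset_const, card_range]
    refine h1.trans ?_
    rw [pow_mul]
    apply Nat.pow_le_pow_left
    calc 6 ≤ 2 ^ 3 := by norm_num
      _ ≤ n ^ 3 := Nat.pow_le_pow_left hn 3
  · intro n l hl k
    rw [mem_product, Set.Finite.mem_toFinset] at hl
    exact hW1 n l.1 hl.1 k
  · intro l i p hp m
    have h1 : cosAngle p m = cosAngle p (fun j => m j % p) := by
      rw [cosAngle_eq p hp, cosAngle_eq p hp]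
      have := Pool.Agent.Y57.FD.HM.tr_mod 1 p m
      rw [this]
    show (if p.Prime ∧ l.2 i ≤ 5 then (Polynomial.Chebyshev.U ℝ (l.2 i : ℤ)).eval (cosAngle p m) else 0) =
      (if p.Prime ∧ l.2 i ≤ 5 then (Polynomial.Chebyshev.U ℝ (l.2 i : ℤ)).eval (cosAngle p (fun j => m j % p)) else 0)
    rw [← h1]
  · intro l i p hp m
    show |(if p.Prime ∧ l.2 i ≤ 5 then (Polynomial.Chebyshev.U ℝ (l.2 i : ℤ)).eval (cosAngle p m) else 0)| ≤ 70
    split_ifs with h1
    · exact U_le _ h1.2 (cos_le p hp m)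
    · rw [abs_zero]
      norm_num
  · intro n l hl
    rw [mem_product] at hl
    obtain ⟨h1, i, hi⟩ := (hJm l.2).1 hl.2
    refine ⟨i, fun p hp => ?_⟩
    have hp0 : (0 : ℝ) < p := by exact_mod_cast hp.pos
    have hp1 : (1 : ℝ) ≤ p := by exact_mod_cast hp.one_lt.le
    have h2 : (fun m : Fin 3 → ℕ => if p.Prime ∧ l.2 i ≤ 5 then (Polynomial.Chebyshev.U ℝ (l.2 i : ℤ)).eval (cosAngle p m) else 0) =
        fun m : Fin 3 → ℕ => (Polynomial.Chebyshev.U ℝ (l.2 i : ℤ)).eval (cosAngle p m) := by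
      funext m
      rw [if_pos ⟨hp, h1 i⟩]
    show |Pool.Agent.TH894.NE.mean 3 p (fun m : Fin 3 → ℕ => if p.Prime ∧ l.2 i ≤ 5 then
      (Polynomial.Chebyshev.U ℝ (l.2 i : ℤ)).eval (cosAngle p m) else 0)| ≤ _
    rw [h2]
    refine (hC (l.2 i) (Nat.one_le_iff_ne_zero.2 hi) (h1 i) p hp).trans ?_
    have h3 : C (l.2 i) ≤ C' := by
      rw [hC']
      exact single_le_sum (f := C) (fun j _ => hC0 j) (mem_range.2 (by have := h1 i; omega))
    have h4 : Real.sqrt p ≤ p := by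
      rw [Real.sqrt_le_left hp0.le]
      nlinarith
    calc C (l.2 i) / (p : ℝ) ≤ C' / p := div_le_div_of_nonneg_right h3 hp0.le
      _ ≤ C' / Real.sqrt p := div_le_div_of_nonneg_left hC'0 (Real.sqrt_pos.2 hp0) h4
  · intro m hm n hyn hnr w hw j hj hj0
    have h1 := hm n (by omega) (by omega) hnr (w, j) (by
      rw [mem_product, Set.Finite.mem_toFinset]
      exact ⟨hw, (hJm j).2 ⟨hj, hj0⟩⟩)
    have h2 : weylSum s w j n m = ∑ k ∈ range n, w k * ∏ i : Fin s,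
        (if (Pool.Agent.TH894.NF.pr (k + i)).Prime ∧ j i ≤ 5 then
          (Polynomial.Chebyshev.U ℝ (j i : ℤ)).eval (cosAngle (Pool.Agent.TH894.NF.pr (k + i)) m) else 0) := by
      unfold weylSum
      refine sum_congr rfl fun k _ => ?_
      congr 1
      refine prod_congr rfl fun i _ => ?_
      rw [if_pos ⟨Pool.Agent.TH894.NF.pr_prime _, hj i⟩]
      rfl
    rw [h2]
    exact h1

end Pool.Agent.Results.MP_29be01_nt.FewDigitWeylSums
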