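import Mathlib

/-!
# A lower bound, with the conjectured exponent, for the discrepancy of Frobenius angles
-/

open Finset

namespace Pool.Agent.Results.MP_29be01_nt.StarDiscrepancyLowerBound

/-- The `k`-th prime (`p 0 = 2`). -/
noncomputable def p (k : ℕ) : ℕ := Nat.nth Nat.Prime k

/-- The angle `x ∈ [0,1]` with `a k = 2 √p_k cos (π x)`. -/
noncomputable def ang (a : ℕ → ℤ) (k : ℕ) : ℝ := Real.arccos ((a k : ℝ) / (2 * √(p k : ℝ))) / Real.pi

open Classical in
/-- The number of `k < K` for which `(x_k, …, x_{k+s-1})` lies in the box `∏ [u i, v i)`. -/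
noncomputable def cnt (a : ℕ → ℤ) (s K : ℕ) (u v : Fin s → ℝ) : ℕ :=
  #{k ∈ range K | ∀ i : Fin s, u i ≤ ang a (k + i) ∧ ang a (k + i) < v i}

/-- The error `|A(R;K)/K - μ_ST^{[s]}(R)|` for the box `R = ∏ [u i, v i)`. -/
noncomputable def err (a : ℕ → ℤ) (s K : ℕ) (u v : Fin s → ℝ) : ℝ :=
  |(cnt a s K u v : ℝ) / K - ∏ i, ∫ t in (u i)..(v i), 2 * Real.sin (Real.pi * t) ^ 2|

/-- The star discrepancy `D_K^{*,[s]}`. -/
noncomputable def starDisc (a : ℕ → ℤ) (s K : ℕ) : ℝ :=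
  sSup {d | ∃ v : Fin s → ℝ, (∀ i, 0 ≤ v i ∧ v i ≤ 1) ∧ d = err a s K (fun _ => 0) v}

/-- The extreme discrepancy `D_K^{[s]}`. -/
noncomputable def extDisc (a : ℕ → ℤ) (s K : ℕ) : ℝ :=
  sSup {d | ∃ u v : Fin s → ℝ, (∀ i, 0 ≤ u i ∧ u i ≤ v i ∧ v i ≤ 1) ∧ d = err a s K u v}

/-- The Frobenius traces of an integral Weierstrass equation: `0` at the primes dividing the
discriminant, and `p + 1 - #E(𝔽_p)` at the others. -/
noncomputable def frob (W : WeierstrassCurve ℤ) (k : ℕ) : ℤ :=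
  open Classical in
  if (p k : ℤ) ∣ W.Δ then 0
  else (p k : ℤ) + 1 - Nat.card (W.map (Int.castRingHom (ZMod (p k)))).toAffine.Point

/-! ### Primes -/

lemma p_prime (k : ℕ) : (p k).Prime := Nat.prime_nth_prime k

lemma p_two (k : ℕ) : (2 : ℝ) ≤ p k := by exact_mod_cast (p_prime k).two_le

lemma p_mono {j k : ℕ} (h : j ≤ k) : p j ≤ p k :=
  (Nat.nth_monotone Nat.infinite_setOfPred_prime) h

lemma p_le (K : ℕ) (hK : 1 ≤ K) : (p (K - 1) : ℝ) ≤ 40 * (K * Real.log (K + 1)) := by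
  set P : ℕ := p (K - 1) with hP
  have hP2 : (2 : ℝ) ≤ P := p_two _
  have hpi : Nat.primeCounting P = K := by
    have h1 : Nat.primeCounting' (p (K - 1)) = K - 1 := Nat.primeCounting'_nth_eq (K - 1)
    have h2 : Nat.primeCounting P = Nat.primeCounting' (P + 1) := rfl
    rw [h2]
    unfold Nat.primeCounting' at h1 ⊢
    rw [Nat.count_succ, h1, if_pos (p_prime (K - 1))]
    omega
  have hge := Chebyshev.pi_ge P
  rw [hpi] at hge
  have hlogP : 0 < Real.log P := Real.log_pos (by linarith)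
  have hK1 : (1 : ℝ) ≤ K := by exact_mod_cast hK
  rw [div_le_iff₀ hlogP] at hge
  have hlog1 : Real.log (P + 1) ≤ 2 * Real.log P := by
    rw [← Real.log_rpow (by linarith)]
    apply Real.log_le_log (by linarith)
    norm_num
    nlinarith
  have hl2 : (0.6931471803 : ℝ) < Real.log 2 := Real.log_two_gt_d9
  have h1 : (P : ℝ) * Real.log 2 ≤ 3 * K * Real.log P := by nlinarith
  have h2 : (P : ℝ) ≤ 4.4 * K * Real.log P := by nlinarith
  -- first crude bound
  have hs : Real.log P ≤ 2 * √(P : ℝ) := by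
    have h3 : Real.log (√(P : ℝ)) ≤ √(P : ℝ) - 1 :=
      Real.log_le_sub_one_of_pos (Real.sqrt_pos.2 (by linarith))
    rw [Real.log_sqrt (by linarith)] at h3
    linarith
  have hsq : √(P : ℝ) * √(P : ℝ) = P := Real.mul_self_sqrt (by linarith)
  have hspos : 0 < √(P : ℝ) := Real.sqrt_pos.2 (by linarith)
  have h4 : √(P : ℝ) ≤ 9 * K := by
    have : √(P : ℝ) * √(P : ℝ) ≤ (9 * K) * √(P : ℝ) := by
      rw [hsq]
      nlinarith
    exact le_of_mul_le_mul_right this hspos
  have h5 : (P : ℝ) ≤ 81 * (K + 1) ^ 2 := by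
    rw [← hsq]
    nlinarith
  have h6 : Real.log P ≤ 9 * Real.log (K + 1) := by
    have h7 : Real.log P ≤ Real.log (81 * (K + 1) ^ 2) := Real.log_le_log (by linarith) h5
    rw [Real.log_mul (by norm_num) (by positivity), Real.log_pow] at h7
    have h8 : Real.log 81 ≤ 7 * Real.log 2 := by
      rw [show (7 : ℝ) * Real.log 2 = Real.log (2 ^ 7) by rw [Real.log_pow]; norm_num]
      exact Real.log_le_log (by norm_num) (by norm_num)
    have h9 : Real.log 2 ≤ Real.log (K + 1) := Real.log_le_log (by norm_num) (by linarith)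
    push_cast at h7
    linarith
  have h10 : 0 ≤ (K : ℝ) := by linarith
  nlinarith [mul_le_mul_of_nonneg_left h6 h10, Real.log_nonneg (show (1 : ℝ) ≤ K + 1 by linarith)]

/-! ### The gap around `1/2` -/

lemma sqrt_p_pos (k : ℕ) : 0 < √(p k : ℝ) := Real.sqrt_pos.2 (by linarith [p_two k])

/-- An angle is either at most `1/2` or at least `1/2 + 1/(2π√p)`. -/
lemma gap (a : ℕ → ℤ) (k : ℕ) :
    ang a k ≤ 1 / 2 ∨ 1 / 2 + 1 / (2 * Real.pi * √(p k : ℝ)) ≤ ang a k := by
  have hpi := Real.pi_pos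
  have hs := sqrt_p_pos k
  rcases le_or_gt 0 (a k) with h | h
  · left
    unfold ang
    rw [div_le_iff₀ hpi]
    have : Real.arccos ((a k : ℝ) / (2 * √(p k : ℝ))) ≤ Real.pi / 2 := by
      rw [Real.arccos_le_pi_div_two]
      have : (0 : ℝ) ≤ a k := by exact_mod_cast h
      positivity
    linarith
  · right
    unfold ang
    rw [le_div_iff₀ hpi]
    have h1 : (a k : ℝ) ≤ -1 := by
      have : a k ≤ -1 := by omega
      exact_mod_cast this
    set y : ℝ := 1 / (2 * √(p k : ℝ)) with hy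
    have hs1 : 1 ≤ √(p k : ℝ) := by
      rw [Real.one_le_sqrt]; linarith [p_two k]
    have hy0 : 0 < y := by positivity
    have hy1 : y ≤ 1 / 2 := by
      rw [hy, div_le_div_iff₀ (by positivity) (by norm_num)]
      linarith
    have h2 : (a k : ℝ) / (2 * √(p k : ℝ)) ≤ - y := by
      rw [hy, div_le_iff₀ (by positivity)]
      have : -(1 / (2 * √(p k : ℝ))) * (2 * √(p k : ℝ)) = -1 := by field_simp
      rw [this]; exact h1
    have h3 : Real.arccos (-y) ≤ Real.arccos ((a k : ℝ) / (2 * √(p k : ℝ))) :=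
      Real.arccos_le_arccos h2
    have h4 : y ≤ Real.arcsin y := by
      have h5 : Real.sin y ≤ y := Real.sin_le hy0.le
      rw [Real.le_arcsin_iff_sin_le' ⟨by linarith [Real.pi_gt_three], by linarith [Real.pi_gt_three]⟩]
      exact h5
    have h6 : Real.arccos (-y) = Real.pi / 2 + Real.arcsin y := by
      rw [Real.arccos_neg, Real.arccos_eq_pi_div_two_sub_arcsin]; ring
    have h7 : (1 / 2 + 1 / (2 * Real.pi * √(p k : ℝ))) * Real.pi = Real.pi / 2 + y := by
      rw [hy]; field_simp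
    rw [h7]
    linarith

/-! ### The Sato-Tate measure -/

lemma intble (u v : ℝ) :
    IntervalIntegrable (fun t : ℝ => 2 * Real.sin (Real.pi * t) ^ 2) MeasureTheory.volume u v := by
  apply Continuous.intervalIntegrable
  fun_prop

lemma st_full : ∫ t in (0 : ℝ)..1, 2 * Real.sin (Real.pi * t) ^ 2 = 1 := by
  have h : ∀ t : ℝ, 2 * Real.sin (Real.pi * t) ^ 2 = 1 - Real.cos (2 * Real.pi * t) := by
    intro t
    rw [show 2 * Real.pi * t = 2 * (Real.pi * t) by ring, Real.cos_two_mul, Real.sin_sq]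
    ring
  simp_rw [h]
  rw [intervalIntegral.integral_sub (by simp) (by apply Continuous.intervalIntegrable; fun_prop)]
  rw [intervalIntegral.integral_comp_mul_left (fun x => Real.cos x) (by positivity)]
  simp

lemma st_nonneg {u v : ℝ} (h : u ≤ v) : 0 ≤ ∫ t in u..v, 2 * Real.sin (Real.pi * t) ^ 2 :=
  intervalIntegral.integral_nonneg h fun t _ => by positivity

lemma st_le_one {u v : ℝ} (hu : 0 ≤ u) (h : u ≤ v) (hv : v ≤ 1) :
    ∫ t in u..v, 2 * Real.sin (Real.pi * t) ^ 2 ≤ 1 := by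
  have h1 := intervalIntegral.integral_add_adjacent_intervals (intble 0 u) (intble u v)
  have h2 := intervalIntegral.integral_add_adjacent_intervals (intble 0 v) (intble v 1)
  have h3 := st_nonneg hu
  have h4 := st_nonneg hv
  rw [st_full] at h2
  linarith

lemma st_diff {u v : ℝ} (hu : 1 / 2 ≤ u) (h : u ≤ v) (hv : v ≤ 3 / 4) :
    v - u ≤ (∫ t in (0 : ℝ)..v, 2 * Real.sin (Real.pi * t) ^ 2) -
      ∫ t in (0 : ℝ)..u, 2 * Real.sin (Real.pi * t) ^ 2 := by
  have h1 := intervalIntegral.integral_add_adjacent_intervals (intble 0 u) (intble u v)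
  have h2 : ∫ t in u..v, (1 : ℝ) ≤ ∫ t in u..v, 2 * Real.sin (Real.pi * t) ^ 2 := by
    apply intervalIntegral.integral_mono_on h (by simp) (intble u v)
    intro t ht
    have hpi := Real.pi_pos
    have h3 : Real.sin (Real.pi * t) ^ 2 = 1 / 2 - Real.cos (2 * (Real.pi * t)) / 2 :=
      Real.sin_sq_eq_half_sub _
    have h4 : Real.cos (2 * (Real.pi * t)) ≤ 0 := by
      apply Real.cos_nonpos_of_pi_div_two_le_of_le
      · nlinarith [ht.1]
      · nlinarith [ht.2]
    rw [h3]; linarith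
  rw [intervalIntegral.integral_const, smul_eq_mul, mul_one] at h2
  linarith

/-! ### Bounds on errors -/

lemma err_le_one (a : ℕ → ℤ) (s K : ℕ) (u v : Fin s → ℝ)
    (h : ∀ i, 0 ≤ u i ∧ u i ≤ v i ∧ v i ≤ 1) : err a s K u v ≤ 1 := by
  unfold err
  have h1 : (0 : ℝ) ≤ (cnt a s K u v : ℝ) / K := by positivity
  have h2 : (cnt a s K u v : ℝ) / K ≤ 1 := by
    apply div_le_one_of_le₀ _ (by positivity)
    have : cnt a s K u v ≤ K := by
      unfold cnt
      exact (card_filter_le _ _).trans (by simp)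
    exact_mod_cast this
  have h3 : 0 ≤ ∏ i, ∫ t in (u i)..(v i), 2 * Real.sin (Real.pi * t) ^ 2 :=
    prod_nonneg fun i _ => st_nonneg (h i).2.1
  have h4 : ∏ i, ∫ t in (u i)..(v i), 2 * Real.sin (Real.pi * t) ^ 2 ≤ 1 :=
    prod_le_one (fun i _ => st_nonneg (h i).2.1) fun i _ => st_le_one (h i).1 (h i).2.1 (h i).2.2
  rw [abs_le]
  constructor <;> linarith

lemma le_starDisc (a : ℕ → ℤ) (s K : ℕ) (v : Fin s → ℝ) (h : ∀ i, 0 ≤ v i ∧ v i ≤ 1) :
    err a s K (fun _ => 0) v ≤ starDisc a s K := by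
  apply le_csSup
  · refine ⟨1, ?_⟩
    rintro d ⟨w, hw, rfl⟩
    exact err_le_one a s K _ w fun i => ⟨le_rfl, hw i⟩
  · exact ⟨v, h, rfl⟩

lemma starDisc_le_extDisc (a : ℕ → ℤ) (s K : ℕ) : starDisc a s K ≤ extDisc a s K := by
  unfold starDisc
  apply csSup_le
  · exact ⟨_, fun _ => 0, fun _ => ⟨le_rfl, zero_le_one⟩, rfl⟩
  · rintro d ⟨w, hw, rfl⟩
    apply le_csSup
    · refine ⟨1, ?_⟩
      rintro d ⟨u, v, huv, rfl⟩
      exact err_le_one a s K u v huv
    · exact ⟨fun _ => 0, w, fun i => ⟨le_rfl, hw i⟩, rfl⟩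

/-! ### The lower bound -/

lemma lower (a : ℕ → ℤ) (s K : ℕ) (hs : 1 ≤ s) (hK : 1 ≤ K) :
    1 / (8 * Real.pi * √(p (K - 1) : ℝ)) ≤ starDisc a s K := by
  classical
  set P : ℝ := √(p (K - 1) : ℝ) with hP
  have hpi := Real.pi_gt_three
  have hP0 : 0 < P := sqrt_p_pos _
  have hP1 : 1 ≤ P := by
    rw [hP, Real.one_le_sqrt]; linarith [p_two (K - 1)]
  set δ : ℝ := 1 / (2 * Real.pi * P) with hδ
  have hδ0 : 0 < δ := by positivity
  have hδ1 : δ ≤ 1 / 4 := by
    rw [hδ, div_le_div_iff₀ (by positivity) (by norm_num)]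
    nlinarith
  -- the two boxes
  let i₀ : Fin s := ⟨0, hs⟩
  let w : ℝ → Fin s → ℝ := fun t i => if i = i₀ then t else 1
  have hw : ∀ t : ℝ, 0 ≤ t → t ≤ 1 → ∀ i, 0 ≤ w t i ∧ w t i ≤ 1 := by
    intro t h0 h1 i
    by_cases hi : i = i₀
    · simp only [w, hi, if_true]; exact ⟨h0, h1⟩
    · simp only [w, hi, if_false]; norm_num
  have hprod : ∀ t : ℝ, ∏ i, ∫ t in (0 : ℝ)..(w t i), 2 * Real.sin (Real.pi * t) ^ 2 =
      ∫ x in (0 : ℝ)..t, 2 * Real.sin (Real.pi * x) ^ 2 := by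
    intro t
    rw [← Finset.mul_prod_erase univ _ (mem_univ i₀)]
    have h1 : ∏ i ∈ univ.erase i₀, ∫ t in (0 : ℝ)..(w t i), 2 * Real.sin (Real.pi * t) ^ 2 = 1 := by
      apply prod_eq_one
      intro i hi
      have : i ≠ i₀ := (mem_erase.1 hi).1
      simp only [w, this, if_false]
      exact st_full
    rw [h1, mul_one]
    simp [w]
  have hcnt : cnt a s K (fun _ => 0) (w (1 / 2 + δ / 2)) = cnt a s K (fun _ => 0) (w (1 / 2 + δ)) := by
    unfold cnt
    congr 1
    apply filter_congr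
    intro k hk
    have hkK : k < K := mem_range.1 hk
    apply forall_congr'
    intro i
    by_cases hi : i = i₀
    · subst hi
      simp only [w, if_true, i₀, Nat.add_zero]
      have hle : δ ≤ 1 / (2 * Real.pi * √(p k : ℝ)) := by
        rw [hδ]
        apply div_le_div_of_nonneg_left (by norm_num) (by have := sqrt_p_pos k; positivity)
        have : √(p k : ℝ) ≤ P := by
          apply Real.sqrt_le_sqrt
          exact_mod_cast p_mono (by omega)
        nlinarith
      rcases gap a k with h | h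
      · constructor
        · rintro ⟨h1, _⟩; exact ⟨h1, by linarith⟩
        · rintro ⟨h1, _⟩; exact ⟨h1, by linarith⟩
      · constructor
        · rintro ⟨h1, h2⟩; exact ⟨h1, by linarith⟩
        · rintro ⟨h1, h2⟩; exact absurd h2 (by linarith)
    · simp only [w, hi, if_false]
  have h1 := le_starDisc a s K (w (1 / 2 + δ / 2)) (hw _ (by linarith) (by linarith))
  have h2 := le_starDisc a s K (w (1 / 2 + δ)) (hw _ (by linarith) (by linarith))
  unfold err at h1 h2
  rw [hprod] at h1 h2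
  rw [hcnt] at h1
  have h3 := st_diff (u := 1 / 2 + δ / 2) (v := 1 / 2 + δ) (by linarith) (by linarith) (by linarith)
  have h4 := (abs_le.1 (le_of_eq (rfl : |(cnt a s K (fun _ => 0) (w (1 / 2 + δ)) : ℝ) / K -
    ∫ x in (0 : ℝ)..(1 / 2 + δ / 2), 2 * Real.sin (Real.pi * x) ^ 2| = _))).2
  have h5 := (abs_le.1 (le_of_eq (rfl : |(cnt a s K (fun _ => 0) (w (1 / 2 + δ)) : ℝ) / K -
    ∫ x in (0 : ℝ)..(1 / 2 + δ), 2 * Real.sin (Real.pi * x) ^ 2| = _))).1
  have h6 : 1 / (8 * Real.pi * P) = δ / 4 := by rw [hδ]; field_simp; norm_num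
  rw [h6]
  linarith

lemma lower' (a : ℕ → ℤ) (s K : ℕ) (hs : 1 ≤ s) (hK : 1 ≤ K) :
    1 / 160 / √(K * Real.log (K + 1)) ≤ starDisc a s K := by
  refine le_trans ?_ (lower a s K hs hK)
  have hK1 : (1 : ℝ) ≤ K := by exact_mod_cast hK
  have hlog : 0 < Real.log (K + 1) := Real.log_pos (by linarith)
  have hX : 0 < √(K * Real.log (K + 1)) := Real.sqrt_pos.2 (by positivity)
  have h1 : √(p (K - 1) : ℝ) ≤ √40 * √(K * Real.log (K + 1)) := by
    rw [← Real.sqrt_mul (by norm_num)]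
    exact Real.sqrt_le_sqrt (p_le K hK)
  have h2 : √40 ≤ (6.33 : ℝ) := by
    rw [Real.sqrt_le_left (by norm_num)]; norm_num
  have h3 : Real.pi ≤ 3.15 := by linarith [Real.pi_lt_d2]
  have h4 := sqrt_p_pos (K - 1)
  rw [div_div, div_le_div_iff₀ (by positivity) (by positivity)]
  have h5 : √(p (K - 1) : ℝ) ≤ 6.33 * √(K * Real.log (K + 1)) := h1.trans (by gcongr)
  have h6 : 8 * Real.pi * √(p (K - 1) : ℝ) ≤ 8 * 3.15 * (6.33 * √(K * Real.log (K + 1))) := by
    gcongr
  linarith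

/-- **The exponent `-1/2` of the question cannot be improved, for any elliptic curve, in any
dimension and at any `K`.**  For all dimensions `s ≥ 1` and all `K ≥ 1`, the discrepancies of the
angles of every integral Weierstrass equation (in particular of every elliptic curve over `ℚ`) are
at least `(1/160) (K log (K+1))^(-1/2)`; indeed this holds for every sequence `a k` of integers in
place of the Frobenius traces, in the sharper form `D ≥ 1/(8π√p_K)`. -/
theorem result :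
    (∀ (W : WeierstrassCurve ℤ) (s K : ℕ), 1 ≤ s → 1 ≤ K →
      1 / 160 / √(K * Real.log (K + 1)) ≤ starDisc (frob W) s K ∧
      starDisc (frob W) s K ≤ extDisc (frob W) s K) ∧
    (∀ (a : ℕ → ℤ) (s K : ℕ), 1 ≤ s → 1 ≤ K →
      1 / (8 * Real.pi * √(p (K - 1) : ℝ)) ≤ starDisc a s K) :=
  ⟨fun W s K hs hK => ⟨lower' _ s K hs hK, starDisc_le_extDisc _ s K⟩, lower⟩

end Pool.Agent.Results.MP_29be01_nt.StarDiscrepancyLowerBound
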