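import Pool.Agent.Results.MP_29be01_nt.ReflectedBoxes
import Pool.Agent.Y854.GM.Win
import Pool.Agent.Y854.GM.Dya

/-!
# Consecutive Frobenius angles of all quadratic twists in short windows around thin sequences

Let `v ≥ 1` be a sequence with exponent of convergence at most `τ` (for `v_n = n ^ κ` this is `1 / κ`, for `v_n = b ^ n`
it is `0`) and `θ < 1`. For all `s` and `ε > 0` there are `C, c > 0` such that for all `α > 0` outside a set of Hausdorff
dimension at most `(1 - c + τ) / (1 - θ)`, for all elliptic curves `y² = x³ + A x + B` and all but finitely many `n`: for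
ALL twists by `D` with `||D| - α v_n| ≤ v_n ^ θ`, all `K` between `(log |D|) ^ C` and `|D| ^ c` and all products `R` of `s`
intervals, the number of `k < K` such that the angles of the twist at the `s` consecutive primes from the `k`-th on are in
`R` is the mean over the `2 ^ s` reflections of `R` of the numbers for the curve itself, up to an error `K ^ (1 / 2 + ε)`.
-/

set_option autoImplicit false

namespace Pool.Agent.Results.MP_29be01_nt.TwistWindows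

open Pool.Agent.W406.TW

/-- the exponent of convergence of the sequence `v` is at most `τ` -/
def ExpLe (v : ℕ → ℝ) (τ : ℝ) : Prop := ∀ t : ℝ, τ < t → Summable (fun n : ℕ => (v n) ^ (-t))

/-- the twist of `y² = x³ + A x + B` by `D` violates the law for some `K` and some box `R` -/
def Exc (s : ℕ) (ε C c : ℝ) (A B : ℤ) : Set ℤ :=
  {D : ℤ | D ≠ 0 ∧ ∃ K : ℕ, (Real.log |(D : ℝ)|) ^ C ≤ K ∧ (K : ℝ) ≤ |(D : ℝ)| ^ c ∧
    ∃ R : Fin s → Set ℝ, (∀ i, (R i).OrdConnected) ∧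
      (K : ℝ) ^ (1 / 2 + ε) < |(cons (A * D ^ 2) (B * D ^ 3) R K : ℝ) -
        (1 / 2 ^ s) * ∑ J : Finset (Fin s), (cons A B (refl J R) K : ℝ)|}

lemma count (s : ℕ) (ε : ℝ) (hε : 0 < ε) : ∃ C c : ℝ, 0 < C ∧ 0 < c ∧ c < 1 ∧ ∀ A B : ℤ, ∀ η : ℝ, 0 < η →
    ∃ K : ℝ, ∀ X : ℝ, 1 ≤ X → {D : ℤ | D ∈ Exc s ε C c A B ∧ |(D : ℝ)| ≤ X}.Finite ∧
      ({D : ℤ | D ∈ Exc s ε C c A B ∧ |(D : ℝ)| ≤ X}.ncard : ℝ) ≤ K * X ^ (1 - c + η) := by
  obtain ⟨C, c, hC, hc, N₀, hN⟩ := ReflectedBoxes.result s ε hε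
  have hm0 : 0 < min c (1 / 2) := lt_min hc (by norm_num)
  have hm1 : min c (1 / 2) < 1 := lt_of_le_of_lt (min_le_right _ _) (by norm_num)
  -- a threshold for the logarithms
  obtain ⟨L, hL⟩ : ∃ L : ℝ, ∀ y : ℝ, L ≤ y → (y + 1) ^ C ≤ y ^ (C + 1) := by
    refine ⟨max 1 (2 ^ C), fun y hy => ?_⟩
    have hy1 : 1 ≤ y := (le_max_left _ _).trans hy
    have hy2 : (2 : ℝ) ^ C ≤ y := (le_max_right _ _).trans hy
    have hy0 : 0 < y := by linarith
    calc (y + 1) ^ C ≤ (2 * y) ^ C := Real.rpow_le_rpow (by linarith) (by linarith) hC.le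
      _ = 2 ^ C * y ^ C := Real.mul_rpow (by norm_num) hy0.le
      _ ≤ y * y ^ C := mul_le_mul_of_nonneg_right hy2 (by positivity)
      _ = y ^ (C + 1) := by
          rw [Real.rpow_add hy0, Real.rpow_one, mul_comm]
  set N₁ : ℕ := max (max N₀ 1) ⌈Real.exp (max L 0 + 1)⌉₊ with hN₁
  refine ⟨C + 1, min c (1 / 2), by linarith, hm0, hm1, fun A B η hη => ?_⟩
  set Z : ℕ → Set ℤ := fun N => {D : ℤ | D ≠ 0 ∧ |D| ≤ N ∧ ∃ K : ℕ, (Real.log N) ^ C ≤ K ∧ (K : ℝ) ≤ (N : ℝ) ^ c ∧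
        ∃ R : Fin s → Set ℝ, (∀ i, (R i).OrdConnected) ∧
          (K : ℝ) ^ (1 / 2 + ε) < |(cons (A * D ^ 2) (B * D ^ 3) R K : ℝ) -
            (1 / 2 ^ s) * ∑ J : Finset (Fin s), (cons A B (refl J R) K : ℝ)|} with hZ
  refine Pool.Agent.Y854.GM.dyadic (Exc s ε (C + 1) (min c (1 / 2)) A B) Z (1 - min c (1 / 2)) (by linarith) N₁
    (fun N hNN => ?_) (fun N => ?_) (fun D hD N hNN hDN hND => ?_) η hη
  · have h0 : N₀ ≤ N := (le_max_left _ _).trans ((le_max_left _ _).trans hNN)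
    have h1 : 1 ≤ N := (le_max_right _ _).trans ((le_max_left _ _).trans hNN)
    refine (hN N h0 A B).trans (Real.rpow_le_rpow_of_exponent_le (by exact_mod_cast h1) ?_)
    have := min_le_left c (1 / 2)
    linarith
  · refine (Set.finite_Icc (-(N : ℤ)) N).subset ?_
    rintro D ⟨-, h1, -⟩
    exact abs_le.1 h1
  · obtain ⟨hD0, x, hx1, hx2, ht⟩ := hD
    have h1 : 1 ≤ N := (le_max_right _ _).trans ((le_max_left _ _).trans hNN)
    have h2 : Real.exp (max L 0 + 1) ≤ N := (Nat.le_ceil _).trans (by exact_mod_cast (le_max_right _ _).trans hNN)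
    have hDabs : |(D : ℝ)| = (D.natAbs : ℝ) := by
      rw [← Int.cast_abs, Int.abs_eq_natAbs]
      simp
    have hD1 : (1 : ℝ) ≤ |(D : ℝ)| := by
      rw [← Int.cast_abs]
      exact_mod_cast Int.one_le_abs hD0
    have hDN' : |(D : ℝ)| ≤ N := by
      rw [hDabs]
      exact_mod_cast hDN
    have hND' : (N : ℝ) ≤ 2 * |(D : ℝ)| := by
      rw [hDabs]
      exact_mod_cast hND.le
    have hN0 : (0 : ℝ) < N := by exact_mod_cast h1
    have hlogN : max L 0 + 1 ≤ Real.log N := (Real.le_log_iff_exp_le hN0).2 h2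
    have hlogD : Real.log N ≤ Real.log |(D : ℝ)| + 1 := by
      have h3 : Real.log N ≤ Real.log (2 * |(D : ℝ)|) := Real.log_le_log hN0 hND'
      rw [Real.log_mul (by norm_num) (by linarith)] at h3
      have := Real.log_two_lt_d9
      linarith
    have hL1 : L ≤ Real.log |(D : ℝ)| := by
      have := le_max_left L 0
      linarith
    have hlog0 : 0 ≤ Real.log N := by
      have := le_max_right L 0
      linarith
    refine ⟨hD0, ?_, x, ?_, ?_, ht⟩
    · rw [Int.abs_eq_natAbs]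
      exact_mod_cast hDN
    · calc (Real.log N) ^ C ≤ (Real.log |(D : ℝ)| + 1) ^ C := Real.rpow_le_rpow hlog0 hlogD hC.le
        _ ≤ (Real.log |(D : ℝ)|) ^ (C + 1) := hL _ hL1
        _ ≤ x := hx1
    · calc (x : ℝ) ≤ |(D : ℝ)| ^ (min c (1 / 2)) := hx2
        _ ≤ |(D : ℝ)| ^ c := Real.rpow_le_rpow_of_exponent_le hD1 (min_le_left _ _)
        _ ≤ (N : ℝ) ^ c := Real.rpow_le_rpow (abs_nonneg _) hDN' hc.le

/-- **Theorem.** For all `s` and `ε > 0` there are `C > 0` and `0 < c < 1` with the following property. Let `v ≥ 1` be a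
sequence with exponent of convergence at most `τ ≥ 0` and `θ < 1`. There is a set `E` of Hausdorff dimension at most
`(1 - c + τ) / (1 - θ)` such that for each `α > 0` outside `E` and all integers `A, B`, for all but finitely many `n`, ALL
integers `D ≠ 0` with `||D| - α v_n| ≤ v_n ^ θ`, all `K` with `(log |D|) ^ C ≤ K ≤ |D| ^ c` and all products `R` of `s`
intervals, the number `cons (A D²) (B D³) R K` of `k < K` such that the angles of the twist of `y² = x³ + A x + B` by `D`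
at the primes `p_k, ..., p_{k+s-1}` are in `R 0, ..., R (s - 1)` differs by at most `K ^ (1 / 2 + ε)` from the mean over
the `2 ^ s` reflections `refl J R` of the numbers for the curve itself. The sequences `v_n = (n + 1) ^ κ` and
`v_n = b ^ n` have exponent of convergence at most `1 / κ` and `0`. -/
theorem result :
    (∀ (s : ℕ) (ε : ℝ), 0 < ε → ∃ C c : ℝ, 0 < C ∧ 0 < c ∧ c < 1 ∧
      ∀ (v : ℕ → ℝ) (τ θ : ℝ), (∀ n, 1 ≤ v n) → 0 ≤ τ → ExpLe v τ → θ < 1 →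
        ∃ E : Set ℝ, dimH E ≤ ENNReal.ofReal ((1 - c + τ) / (1 - θ)) ∧ ∀ α : ℝ, 0 < α → α ∉ E → ∀ A B : ℤ,
          ∃ n₀ : ℕ, ∀ n : ℕ, n₀ ≤ n → ∀ D : ℤ, D ≠ 0 → |(|D| : ℝ) - α * v n| ≤ (v n) ^ θ →
            ∀ K : ℕ, (Real.log |(D : ℝ)|) ^ C ≤ K → (K : ℝ) ≤ |(D : ℝ)| ^ c →
              ∀ R : Fin s → Set ℝ, (∀ i, (R i).OrdConnected) →
              |(cons (A * D ^ 2) (B * D ^ 3) R K : ℝ) -
                (1 / 2 ^ s) * ∑ J : Finset (Fin s), (cons A B (refl J R) K : ℝ)| ≤ (K : ℝ) ^ (1 / 2 + ε)) ∧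
    (∀ κ : ℝ, 0 < κ → ExpLe (fun n : ℕ => ((n : ℝ) + 1) ^ κ) (1 / κ)) ∧
    (∀ b : ℝ, 1 < b → ExpLe (fun n : ℕ => b ^ n) 0) := by
  refine ⟨fun s ε hε => ?_, fun κ hκ => Pool.Agent.Y854.GM.expLe_pow κ hκ,
    fun b hb => Pool.Agent.Y854.GM.expLe_geom b hb⟩
  obtain ⟨C, c, hC, hc, hc1, hcount⟩ := count s ε hε
  refine ⟨C, c, hC, hc, hc1, fun v τ θ hv hτ hE hθ1 => ?_⟩
  have key : ∀ z : ℤ × ℤ, ∃ E : Set ℝ, dimH E ≤ ENNReal.ofReal ((1 - c + τ) / (1 - θ)) ∧ ∀ α : ℝ, 0 < α → α ∉ E →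
      ∃ n₀ : ℕ, ∀ n : ℕ, n₀ ≤ n → ∀ D ∈ Exc s ε C c z.1 z.2, (v n) ^ θ < |(|(D : ℝ)|) - α * v n| := by
    rintro ⟨A, B⟩
    exact Pool.Agent.Y854.GM.windows (Exc s ε C c A B) (fun D : ℤ => |(D : ℝ)|) hv hτ hE
      (s := 1 - c) (by linarith) hθ1 (fun η hη => hcount A B η hη)
  choose G hG1 hG2 using key
  refine ⟨⋃ z, G z, ?_, fun α hα hαE A B => ?_⟩
  · rw [dimH_iUnion]
    exact iSup_le hG1
  · rw [Set.mem_iUnion] at hαE
    push Not at hαE
    obtain ⟨n₀, hn⟩ := hG2 (A, B) α hα (hαE (A, B))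
    refine ⟨n₀, fun n hn1 D hD0 hw K hx1 hx2 R hR => ?_⟩
    by_contra hcon
    push Not at hcon
    exact absurd (hn n hn1 D ⟨hD0, K, hx1, hx2, R, hR, hcon⟩) (not_lt.2 hw)

end Pool.Agent.Results.MP_29be01_nt.TwistWindows
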